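import Mathlib

/-!
# Eigenspaces of semisimple operators
-/

set_option autoImplicit false

namespace Pool.Agent.BB51

open Module Polynomial

section

variable {W : Type*} [AddCommGroup W] [Module ℂ W] {ι : Type*}

/-- decomposing an element of a finite sum of subspaces -/
theorem exists_sum {S : ι → Submodule ℂ W} {F : Finset ι} {v : W} (hv : v ∈ ⨆ i ∈ F, S i) :
    ∃ x : ι → W, (∀ i, x i ∈ S i) ∧ v = ∑ i ∈ F, x i := by
  classical
  obtain ⟨mu, hmu⟩ := (Submodule.mem_iSup_finset_iff_exists_sum _ _).1 hv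
  exact ⟨fun i => (mu i : W), fun i => (mu i).2, hmu.symm⟩

theorem prod_kill {N : End ℂ W} {S : ι → Submodule ℂ W} {μ : ι → ℂ} {F : Finset ι}
    (h : ∀ i ∈ F, ∀ v ∈ S i, N v = μ i • v) {v : W} (hv : v ∈ ⨆ i ∈ F, S i) :
    aeval N (∏ i ∈ F, (X - C (μ i))) v = 0 := by
  classical
  obtain ⟨x, hx, rfl⟩ := exists_sum hv
  rw [map_sum]
  refine Finset.sum_eq_zero fun i hi => ?_
  rw [End.aeval_apply_of_mem_apply_eq_smul (h i hi _ (hx i)), eval_prod,
    Finset.prod_eq_zero hi (by simp), zero_smul]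

/-- an eigenvector for a further eigenvalue is zero -/
theorem eq_zero_of_iSup {N : End ℂ W} {S : ι → Submodule ℂ W} {μ : ι → ℂ} {F : Finset ι}
    (h : ∀ i ∈ F, ∀ v ∈ S i, N v = μ i • v) {v : W} (hv : v ∈ ⨆ i ∈ F, S i) {ν : ℂ}
    (hN : N v = ν • v) (hν : ∀ i ∈ F, μ i ≠ ν) : v = 0 := by
  have h1 := prod_kill h hv
  rw [End.aeval_apply_of_mem_apply_eq_smul hN, eval_prod, smul_eq_zero] at h1
  rcases h1 with h1 | h1
  · rw [Finset.prod_eq_zero_iff] at h1
    obtain ⟨i, hi, h2⟩ := h1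
    rw [eval_sub, eval_X, eval_C, sub_eq_zero] at h2
    exact absurd h2.symm (hν i hi)
  · exact h1

/-- an eigenvector lies in its part of the sum -/
theorem mem_of_iSup {N : End ℂ W} {S : ι → Submodule ℂ W} {μ : ι → ℂ} {F : Finset ι}
    (h : ∀ i ∈ F, ∀ v ∈ S i, N v = μ i • v) {v : W} (hv : v ∈ ⨆ i ∈ F, S i) {k : ι}
    (hk : k ∈ F) (hN : N v = μ k • v) (hμ : ∀ i ∈ F, i ≠ k → μ i ≠ μ k) : v ∈ S k := by
  classical
  obtain ⟨x, hx, hv'⟩ := exists_sum hv
  have h1 : v - x k = ∑ i ∈ F.erase k, x i := by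
    rw [hv', ← Finset.add_sum_erase F x hk, add_sub_cancel_left]
  have h2 : v - x k ∈ ⨆ i ∈ F.erase k, S i := by
    rw [h1]
    exact Submodule.sum_mem _ fun i hi => Submodule.mem_iSup_of_mem i
      (Submodule.mem_iSup_of_mem hi (hx i))
  have h3 : v - x k = 0 := by
    refine eq_zero_of_iSup (N := N) (μ := μ) (fun i hi => h i (Finset.mem_of_mem_erase hi)) h2
      (ν := μ k) ?_ fun i hi => hμ i (Finset.mem_of_mem_erase hi) (Finset.ne_of_mem_erase hi)
    rw [map_sub, hN, h k hk _ (hx k), smul_sub]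
  rw [sub_eq_zero] at h3
  rw [h3]
  exact hx k

theorem semisimple_of_iSup {N : End ℂ W} {S : ι → Submodule ℂ W} {μ : ι → ℂ} {F : Finset ι}
    (h : ∀ i ∈ F, ∀ v ∈ S i, N v = μ i • v) (htop : ⊤ ≤ ⨆ i ∈ F, S i) : N.IsSemisimple := by
  classical
  refine End.isSemisimple_of_squarefree_aeval_eq_zero
    (p := ∏ ν ∈ F.image μ, (X - C ν)) ?_ ?_
  · apply Separable.squarefree
    rw [separable_prod_X_sub_C_iff' (f := fun ν : ℂ => ν)]
    intro x _ y _ hxy
    exact hxy
  · ext v
    rw [LinearMap.zero_apply]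
    obtain ⟨x, hx, rfl⟩ := exists_sum (htop (x := v) trivial)
    rw [map_sum]
    refine Finset.sum_eq_zero fun i hi => ?_
    rw [End.aeval_apply_of_mem_apply_eq_smul (h i hi _ (hx i)), eval_prod,
      Finset.prod_eq_zero (Finset.mem_image_of_mem μ hi) (by simp), zero_smul]

/-- an invariant subspace is the sum of its eigenvectors -/
theorem le_of_eigen [FiniteDimensional ℂ W] {N : End ℂ W} (hN : N.IsSemisimple)
    {M Q : Submodule ℂ W} (hM : ∀ v ∈ M, N v ∈ M)
    (h : ∀ μ : ℂ, ∀ v ∈ M, N v = μ • v → v ∈ Q) : M ≤ Q := by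
  have h1 := Submodule.inf_iSup_genEigenspace (p := M) (f := N) hM 1
  have h2 : ⨆ μ, N.genEigenspace μ 1 = ⊤ := hN.iSup_eigenspace_eq_top
  rw [h2, inf_top_eq] at h1
  rw [h1]
  refine iSup_le fun μ v hv => ?_
  exact h μ v hv.1 (End.mem_eigenspace_iff.1 hv.2)

end

section ad

variable {V : Type*} [AddCommGroup V] [Module ℂ V] [FiniteDimensional ℂ V]

theorem semisimple_mulLeft {c : End ℂ V} (hc : c.IsSemisimple) :
    End.IsSemisimple (LinearMap.mulLeft ℂ c : End ℂ (End ℂ V)) := by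
  refine End.isSemisimple_of_squarefree_aeval_eq_zero hc.minpoly_squarefree ?_
  have h1 : ∀ p : ℂ[X], aeval (LinearMap.mulLeft ℂ c : End ℂ (End ℂ V)) p =
      LinearMap.mulLeft ℂ (aeval c p) := fun p => by
    have := aeval_algHom_apply (Algebra.lmul ℂ (End ℂ V)) c p
    exact this
  rw [h1, minpoly.aeval]
  ext f
  simp

theorem semisimple_mulRight {c : End ℂ V} (hc : c.IsSemisimple) :
    End.IsSemisimple (LinearMap.mulRight ℂ c : End ℂ (End ℂ V)) := by
  refine End.isSemisimple_of_squarefree_aeval_eq_zero hc.minpoly_squarefree ?_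
  have h1 : ∀ p : ℂ[X], aeval (LinearMap.mulRight ℂ c : End ℂ (End ℂ V)) p =
      LinearMap.mulRight ℂ (aeval c p) := fun p => by
    induction p using Polynomial.induction_on' with
    | add p q hp hq =>
      rw [map_add, map_add, hp, hq]
      ext f
      simp [mul_add]
    | monomial k a =>
      rw [aeval_monomial, aeval_monomial]
      ext f v
      have h2 : ∀ k : ℕ, ((LinearMap.mulRight ℂ c : End ℂ (End ℂ V)) ^ k) f = f * c ^ k := by
        intro k
        induction k with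
        | zero => simp
        | succ k ih =>
          rw [pow_succ', Module.End.mul_apply, ih, LinearMap.mulRight_apply, mul_assoc,
            ← pow_succ]
      rw [Module.End.mul_apply, h2, Module.algebraMap_end_apply, LinearMap.mulRight_apply,
        LinearMap.smul_apply, Module.End.mul_apply, Module.End.mul_apply, Module.End.mul_apply,
        Module.algebraMap_end_apply, map_smul]
  rw [h1, minpoly.aeval]
  ext f
  simp

theorem semisimple_ad {c : End ℂ V} (hc : c.IsSemisimple) :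
    End.IsSemisimple (LinearMap.mulLeft ℂ c - LinearMap.mulRight ℂ c : End ℂ (End ℂ V)) := by
  refine End.IsSemisimple.sub_of_commute ?_ (semisimple_mulLeft hc) (semisimple_mulRight hc)
  refine LinearMap.ext fun f => ?_
  simp [mul_assoc]

end ad

end Pool.Agent.BB51
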